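import Mathlib

/-! Counting translates that meet a closed disc instead of centres in an open disc. -/

set_option autoImplicit false

open Filter Set MeasureTheory Metric

namespace Pool.Agent.MP_cab9bb_co

theorem lit_ratio {a : ENNReal} (ha : a < 1) (R : ℝ) (hR : 0 ≤ R) :
    ∀ᶠ r : ℝ in atTop, a * volume (ball (0 : EuclideanSpace ℝ (Fin 2)) (r + R)) ≤
      volume (closedBall (0 : EuclideanSpace ℝ (Fin 2)) r) := by
  lift a to NNReal using ha.ne_top
  have ha' : (a : ℝ) < 1 := by exact_mod_cast ha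
  have h1 : Tendsto (fun r : ℝ => (a : ℝ) * (1 + R / r) ^ 2) atTop (nhds ((a : ℝ) * (1 + 0) ^ 2)) :=
    ((tendsto_const_nhds.add (tendsto_const_nhds.div_atTop tendsto_id)).pow 2).const_mul _
  rw [add_zero, one_pow, mul_one] at h1
  filter_upwards [h1.eventually (gt_mem_nhds ha'), eventually_gt_atTop (0 : ℝ)] with r hr h0
  rw [Measure.addHaar_closedBall_eq_addHaar_ball, Measure.addHaar_ball _ _ (by positivity),
    Measure.addHaar_ball _ _ h0.le, ← mul_assoc]
  refine mul_le_mul_left ?_ _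
  rw [finrank_euclideanSpace_fin, ← ENNReal.ofReal_coe_nnreal,
    ← ENNReal.ofReal_mul a.coe_nonneg]
  refine ENNReal.ofReal_le_ofReal ?_
  have e : (a : ℝ) * (r + R) ^ 2 = (a : ℝ) * (1 + R / r) ^ 2 * r ^ 2 := by
    field_simp
  rw [e]
  exact mul_le_of_le_one_left (sq_nonneg r) hr.le

theorem lit_le {K : Set (EuclideanSpace ℝ (Fin 2))} (hK : IsCompact K)
    (hi : (interior K).Nonempty) :
    (⨅ b : ℕ → EuclideanSpace ℝ (Fin 2), ⨅ (_ : (⋃ i, (fun x => b i + x) '' K) = univ),
        liminf (fun r : ℝ => volume K *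
          ({i | ((fun x => b i + x) '' K ∩ closedBall 0 r).Nonempty}.encard : ENNReal) /
            volume (closedBall (0 : EuclideanSpace ℝ (Fin 2)) r)) atTop) ≤
      ⨅ T : Set (EuclideanSpace ℝ (Fin 2)), ⨅ (_ : (⋃ s ∈ T, (fun x => s + x) '' K) = univ),
        liminf (fun r : ℝ => ((T ∩ ball (0 : EuclideanSpace ℝ (Fin 2)) r).encard : ENNReal) *
          volume K / volume (ball (0 : EuclideanSpace ℝ (Fin 2)) r)) atTop := by
  refine le_iInf₂ fun T hT => ?_
  refine le_of_forall_gt_imp_ge_of_dense fun y hy => le_trans ?_ hy.le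
  have hV : volume K ≠ 0 := (Measure.measure_pos_of_nonempty_interior _ hi).ne'
  have hfin : ∀ n : ℕ, (T ∩ ball (0 : EuclideanSpace ℝ (Fin 2)) n).Finite := by
    intro n
    obtain ⟨r, hr, hn⟩ := ((frequently_lt_of_liminf_lt (h := hy)).and_eventually
      (eventually_ge_atTop (n : ℝ))).exists
    refine Set.Finite.subset ?_ (inter_subset_inter_right T (ball_subset_ball hn))
    by_contra h
    rw [Set.Infinite.encard_eq h, ENat.toENNReal_top, ENNReal.top_mul hV,
      ENNReal.top_div_of_ne_top measure_ball_lt_top.ne] at hr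
    exact not_top_lt hr
  have hc : T.Countable := by
    refine (countable_iUnion fun n => (hfin n).countable).mono fun x hx => ?_
    obtain ⟨n, hn⟩ := exists_nat_gt ‖x‖
    exact mem_iUnion.2 ⟨n, hx, mem_ball_zero_iff.2 hn⟩
  have hinf : T.Infinite := fun h => by
    have h1 := h.isCompact_biUnion fun s _ => hK.image (continuous_const_add s)
    rw [hT] at h1
    exact noncompact_univ _ h1
  obtain ⟨d⟩ := Set.countable_infinite_iff_nonempty_denumerable.1 ⟨hc, hinf⟩
  let b : ℕ → EuclideanSpace ℝ (Fin 2) := fun n => ((Denumerable.eqv T).symm n).1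
  have hb : Function.Injective b :=
    Subtype.val_injective.comp (Denumerable.eqv T).symm.injective
  have hcov : (⋃ i, (fun x => b i + x) '' K) = univ := by
    refine eq_univ_of_forall fun z => ?_
    obtain ⟨s, hs, hz⟩ := mem_iUnion₂.1 (hT.ge (mem_univ z))
    refine mem_iUnion.2 ⟨Denumerable.eqv T ⟨s, hs⟩, ?_⟩
    simpa only [b, Equiv.symm_apply_apply] using hz
  refine (iInf₂_le b hcov).trans (ENNReal.le_of_forall_lt_one_mul_le fun a ha => ?_)
  obtain ⟨R, hR0, hR⟩ := hK.isBounded.subset_ball_lt 0 0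
  rw [← ENNReal.liminf_const_mul_of_ne_top ha.ne_top]
  have hv : Tendsto (fun r : ℝ => r + -R) atTop atTop :=
    tendsto_atTop_add_const_right _ _ tendsto_id
  refine (hv.liminf_le_liminf_comp (β := ENNReal)).trans (liminf_le_liminf ?_)
  filter_upwards [hv.eventually (lit_ratio ha R hR0.le)] with r hr
  rw [neg_add_cancel_right] at hr
  have h1 : {i | ((fun x => b i + x) '' K ∩ closedBall 0 (r + -R)).Nonempty}.encard ≤
      (T ∩ ball (0 : EuclideanSpace ℝ (Fin 2)) r).encard := by
    refine encard_le_encard_of_injOn (f := b) ?_ hb.injOn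
    rintro i ⟨_, ⟨x, hx, rfl⟩, h2⟩
    refine ⟨((Denumerable.eqv T).symm i).2, mem_ball_zero_iff.2 ?_⟩
    have h3 := mem_closedBall_zero_iff.1 h2
    have h4 := mem_ball_zero_iff.1 (hR hx)
    have h5 := norm_sub_le (b i + x) x
    rw [add_sub_cancel_right] at h5
    linarith
  have h2 : a * (volume (closedBall (0 : EuclideanSpace ℝ (Fin 2)) (r + -R)))⁻¹ ≤
      (volume (ball (0 : EuclideanSpace ℝ (Fin 2)) r))⁻¹ := by
    rw [ENNReal.le_inv_iff_mul_le, mul_right_comm]
    exact (mul_le_mul_left hr _).trans (ENNReal.mul_inv_le_one _)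
  simp only [Function.comp_apply, div_eq_mul_inv]
  rw [mul_left_comm, mul_comm (volume K)]
  exact mul_le_mul' (mul_le_mul_left (ENat.toENNReal_le.2 h1) _) h2

end Pool.Agent.MP_cab9bb_co
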